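import Mathlib
import Pool.Agent.H5.MD.Stmt
import Pool.Agent.H5.MD.P9

open MLD

/-- Question Q1 has a negative answer (`d = 11`, `B = 0`, any `Γ`, any `l`): there is a normal
affine variety `X = Spec R` of dimension `11` over `ℂ`, with function field `K`, a closed point
`x` and a generator `ω` of its canonical sheaf such that `X` is klt, the minimal log discrepancy
of `X` at `x` is `7`, and no prime divisor `E` over `X` with centre `x` and `a(E, X, 0) = 7`
admits a divisorial contraction, even over a smaller neighbourhood of `x`. -/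
theorem Pool.Agent.Results.MP_c79307_ag.NotExtractable.result :
    ∃ (R K : Type) (_ : CommRing R) (_ : IsDomain R) (_ : Field K) (_ : Algebra ℂ R)
      (_ : Algebra R K) (_ : Algebra ℂ K) (_ : IsScalarTower ℂ R K) (_ : IsFractionRing R K)
      (x : Ideal R) (ω : ExteriorAlgebra K (Om K)),
      Algebra.FiniteType ℂ R ∧ IsIntegrallyClosed R ∧ Algebra.trdeg ℂ K = 11 ∧ x.IsMaximal ∧
      CanonicalGen 10 R ω ∧ Klt 10 R ω ∧ IsMld 10 x ω 7 ∧
      ∀ O : ValuationSubring K, OverPoint x O → HasLogDisc 10 O ω 7 → ¬ Extractable x O :=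
  H5ML.main
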